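import Pool.Agent.Helper85.ND.WMT2S
import Pool.Agent.Helper17.PP2.Parts

/-!
# Project ND (MP_fc6b1e_nt), packet W_MT2: `MT₂` with weights
-/

namespace Pool.Agent.Helper85.ND

open Finset Pool.Agent.Helper17.PP Pool.Agent.Helper17.PP0 Pool.Agent.Helper17.PP2
open Pool.Agent.Helper38.ND

theorem w_mt2 : Pool.Agent.Helper38.ND.W_MT2 := by
  classical
  intro hCOR p _ B B₀ k U Λ Cc _ _ _ _ _ _ _ _ _ _ _ S ψ G₁ g K hyp₂ w hw ε hε
  have hyp : Hyp₀ S ψ g K := hyp₂.toHyp₀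
  have hCNT : C_CNT := Pool.Agent.Helper28.PP.c_cnt
  have hFUL : R_FUL := Pool.Agent.Helper86.PP2.r_ful Pool.Agent.Helper83.PP.c_lab
  obtain ⟨K₃, hK₃⟩ := (Pool.Agent.Helper30.PP2.r_osa Pool.Agent.Helper22.PP.c_dec)
    p B B₀ k U Λ Cc S ψ G₁ g K hyp₂
  obtain ⟨K₅, hK₅⟩ := (EX2.c_ex2 Pool.Agent.Helper22.PP.c_dec) p B B₀ k U Λ Cc S ψ g K hyp
  obtain ⟨K₆, hK₆⟩ := (Pool.Agent.Helper74.PP2.r_osz Pool.Agent.Helper83.PP.c_lab
    Pool.Agent.Helper22.PP.c_dec) p B B₀ k U Λ Cc S ψ g K hyp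
  have hEX0 := EX0.c_ex0 p B B₀ k U Λ Cc S ψ g K hyp
  have hEX5 := (EX5.c_ex5 Pool.Agent.Helper22.PP.c_dec) p B B₀ k U Λ Cc S ψ g K hyp
  have hEX6 := (EX6.c_ex6 Pool.Agent.Helper22.PP.c_dec) p B B₀ k U Λ Cc S ψ g K hyp
  have hEX7 := (Pool.Agent.Helper91.PP2.r_ex7 Pool.Agent.Helper22.PP.c_dec)
    p B B₀ k U Λ Cc S ψ G₁ g K hyp₂
  have hK : 1 ≤ K := hyp.one_le
  obtain ⟨n, a, hcomb⟩ := hw.comb
  obtain ⟨D, hD0, hD⟩ := hw.dom
  set Aw : ℝ := ∑ l ∈ range n, |a l| with hAw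
  have hAw0 : 0 ≤ Aw := by positivity
  set E := 2 * K * (K + 1) with hE
  obtain ⟨A₂, hA₂⟩ := Pool.Agent.Helper36.PP2.r_sm6 K K₃ hK
  have hE1 : 1 ≤ E := by
    rw [hE]; nlinarith
  set Q : ℝ := (Fintype.card k : ℝ) with hQ
  have hQ2 : 2 ≤ Q := by
    rw [hQ]; exact_mod_cast Fintype.one_lt_card (α := k)
  set ρ : ℝ := (Fintype.card U / Fintype.card Λ : ℝ) with hρ
  have hρ0 : 0 ≤ ρ := by positivity
  set V : ℝ := 5 * D + (2 + D * K₆ + Aw * K * K₃) with hV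
  have hV0 : 0 < V := by positivity
  set e : ℝ := ε / V with he
  have he0 : 0 < e := by positivity
  -- the choice of `j₀`
  obtain ⟨jE, hjE⟩ := le_th_of_large E hE1
  obtain ⟨j5, hj5⟩ := hEX5 E e hE1 he0
  obtain ⟨j7, hj7⟩ := hEX7 e he0
  obtain ⟨j9, hj9⟩ := hCOR p B B₀ k U Λ Cc S ψ g K hyp w hw e he0
  obtain ⟨n5, hn5⟩ := exists_nat_ge (K₅ / e : ℝ)
  set j₀ := 2 + jE + j5 + j7 + j9 + n5 with hj₀
  have hj₀2 : 2 ≤ j₀ := by omega
  have hK5 : (K₅ : ℝ) / j₀ ≤ e := by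
    rw [div_le_iff₀ (by positivity)]
    rw [div_le_iff₀ he0] at hn5
    have : (n5 : ℝ) ≤ j₀ := by exact_mod_cast (by omega : n5 ≤ j₀)
    nlinarith
  have hth : ∀ j, j₀ ≤ j → j ≤ th E j := fun j hj ↦ hjE j (by omega)
  -- the choice of `X₀`
  obtain ⟨L5, hL5⟩ := Pool.Agent.Helper36.PP2.r_sm5 K K₆ A₂ j₀ e hK he0
  obtain ⟨L6, hL6⟩ := hA₂ e he0
  obtain ⟨L7, hL7⟩ := ti_le_sqrt A₂ j₀
  obtain ⟨X0, hX0⟩ := hEX0 j₀ e he0
  obtain ⟨X6, hX6⟩ := hEX6 E e hE1 he0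
  obtain ⟨X9, hX9⟩ := hj9 j₀ (by omega)
  refine ⟨max (2 ^ (L5 + L6 + L7 + 9 + j₀ * j₀)) (max (max X0 X6) (max X9 (n + 1))),
    fun X hX P ↦ ?_⟩
  have hXp : (2 : ℝ) ^ (L5 + L6 + L7 + 9 + j₀ * j₀) ≤ X := (le_max_left _ _).trans hX
  have hXX := (le_max_right _ _).trans hX
  have hXX1 := (le_max_left _ _).trans hXX
  have hXX2 := (le_max_right _ _).trans hXX
  have hXX0 : X0 ≤ X := (le_max_left _ _).trans hXX1
  have hXX6 : X6 ≤ X := (le_max_right _ _).trans hXX1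
  have hXX9 : X9 ≤ X := (le_max_left _ _).trans hXX2
  have hXn : (n : ℝ) + 1 ≤ X := (le_max_right _ _).trans hXX2
  have hLX := le_lg hXp
  set L := lg X with hL
  set s := Nat.sqrt L with hs
  set T := ti A₂ L + j₀ with hT
  have hX1 : 1 ≤ X := le_trans (one_le_pow₀ (by norm_num)) hXp
  have hj₀s : j₀ ≤ s := by
    rw [hs, Nat.le_sqrt]; omega
  have hTs : T ≤ s := hL7 L (by omega)
  have hj₀T : j₀ ≤ T := by omega
  have hgX : 1 ≤ g X := hyp.g_one X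
  have hXg : 0 ≤ X * g X := by positivity
  set P' := P.filter fun q ↦ S.bl q ≤ th E s with hP'
  have hP'bl : ∀ q ∈ P', S.bl q ≤ th E s := fun q hq ↦ (mem_filter.1 hq).2
  set J := th E s + 1 with hJ
  have hP'J : ∀ q ∈ P', S.bl q < J := fun q hq ↦ Nat.lt_succ_of_le (hP'bl q hq)
  -- the weight
  set W : Finset B → ℝ := fun b ↦ w (S.nm b / X) with hWdef
  have hW0 : ∀ b, 0 ≤ W b := fun b ↦ hw.nonneg _ (by positivity)
  have hWD : ∀ b, W b ≤ D * Real.exp (-(S.nm b / X)) := fun b ↦ hD _ (by positivity)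
  have hdom : ∀ F : Finset (Finset B), ∑ b ∈ F, W b ≤
      D * ∑ b ∈ F, Real.exp (-(S.nm b / X)) := by
    intro F
    rw [Finset.mul_sum]
    exact Finset.sum_le_sum fun b _ ↦ hWD b
  -- the exceptional sets
  have b1 := step1W (Λ := Λ) S hCNT W hW0 G₁ E j₀ s P
  have b6 := (hdom _).trans (mul_le_mul_of_nonneg_left (hX6 X hXX6 P) hD0.le)
  have b0 := (hdom _).trans (mul_le_mul_of_nonneg_left (hX0 X hXX0 P) hD0.le)
  have b2 := (hdom _).trans (mul_le_mul_of_nonneg_left ((hK₅ j₀ X P (by omega) hX1).trans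
    (mul_le_mul_of_nonneg_right hK5 hXg)) hD0.le)
  have b5 := (hdom _).trans (mul_le_mul_of_nonneg_left (hj5 j₀ (by omega) X hX1 P) hD0.le)
  have b7 := (hdom _).trans (mul_le_mul_of_nonneg_left (hj7 j₀ (by omega) X hX1 P) hD0.le)
  -- the good sets
  have b4 := step4W (Λ := Λ) S W hW0 G₁ E j₀ s T P' hP'bl hj₀T
  obtain ⟨hS1, hS2⟩ := hX9 X hXX9 P' hP'bl
  set F : ℝ := ∑ b ∈ P'.powerset with S.Fam b, W b with hF
  replace hS1 : ∑ j ∈ Ico j₀ s, T1W S W E P' j ≤ e * (X * g X) := hS1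
  replace hS2 : ∑ j ∈ Ico s J, T1W S W E P' j ≤ ρ * (Q * F) + e * (X * g X) := hS2
  -- the zero labels
  have hZ : ∀ s' : k, ∑ j ∈ Ico s J, Z1W S ψ W T E P' j s' ≤ D * (K₆ * e * (X * g X)) := by
    intro s'
    have h1 : ∀ j ∈ Ico s J, Z1W S ψ W T E P' j s' ≤
        D * (K₆ * ((((ti A₂ L + j₀ : ℕ) : ℝ) + 2) ^ K₆ / j * min 1 (2 ^ (L + 1) / 2 ^ j) *
        ((max 1 (L - (j + 1)) : ℕ) : ℝ) ^ (-(1 / (2 * K) : ℝ))) * (X * g X)) := by
      intro j hj
      rw [mem_Ico] at hj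
      have hmono : th E s ≤ th E j := by
        unfold th
        exact Nat.pow_le_pow_right (by norm_num) (Nat.div_le_div_right hj.1)
      have h2 := hK₆ E T j s' X P' (by omega) (by omega)
        (fun q hq ↦ (hP'bl q hq).trans hmono) hX1
      have hm := min_bound X j
      have h3 : Z1W S ψ W T E P' j s' ≤ D * Z1 S ψ T E P' X j s' := by
        unfold Z1W Z1
        rw [Finset.mul_sum]
        refine Finset.sum_le_sum fun b _ ↦ ?_
        rw [Finset.mul_sum]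
        refine Finset.sum_le_sum fun q _ ↦ ?_
        calc _ ≤ ‖ful S ψ E P' b q s' (Zr S T E b q)‖ * (D * Real.exp (-(S.nm b / X))) :=
              mul_le_mul_of_nonneg_left (hWD b) (norm_nonneg _)
          _ = _ := by ring
      refine h3.trans (mul_le_mul_of_nonneg_left ?_ hD0.le)
      refine (show Z1 S ψ T E P' X j s' ≤ _ from h2).trans ?_
      refine mul_le_mul_of_nonneg_right ?_ hXg
      have h0 : (0 : ℝ) ≤ ((max 1 (L - (j + 1)) : ℕ) : ℝ) ^ (-(1 / (2 * K) : ℝ)) := by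
        positivity
      have h01 : (0 : ℝ) ≤ K₆ * (((T : ℝ) + 2) ^ K₆ / j) := by positivity
      calc (K₆ : ℝ) * ((T : ℝ) + 2) ^ K₆ / j * min 1 (X / 2 ^ j) *
            ((max 1 (lg X - (j + 1)) : ℕ) : ℝ) ^ (-(1 / (2 * K) : ℝ))
          = K₆ * (((T : ℝ) + 2) ^ K₆ / j) * min 1 (X / 2 ^ j) *
            ((max 1 (L - (j + 1)) : ℕ) : ℝ) ^ (-(1 / (2 * K) : ℝ)) := by
            rw [← hL]; ring
        _ ≤ K₆ * (((T : ℝ) + 2) ^ K₆ / j) * min 1 (2 ^ (lg X + 1) / 2 ^ j) *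
            ((max 1 (L - (j + 1)) : ℕ) : ℝ) ^ (-(1 / (2 * K) : ℝ)) :=
            mul_le_mul_of_nonneg_right (mul_le_mul_of_nonneg_left hm h01) h0
        _ = _ := by rw [← hT, ← hL]; ring
    refine (Finset.sum_le_sum h1).trans ?_
    rw [← Finset.mul_sum, ← Finset.sum_mul, ← Finset.mul_sum]
    exact mul_le_mul_of_nonneg_left (mul_le_mul_of_nonneg_right (mul_le_mul_of_nonneg_left
      (hL5 L (by omega) J) (Nat.cast_nonneg _)) hXg) hD0.le
  -- the oscillating sums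
  have hO : ∀ s' : k, s' ≠ 0 → ∑ j ∈ Ico s J, ∑ i ∈ Ico T J with i ≠ j,
      ‖A1W S ψ W G₁ T E P' i j s'‖ ≤ Aw * K * K₃ * e * (X * g X) := by
    intro s' hs'
    have h1 : ∀ j ∈ Ico s J, ∀ i ∈ (Ico T J).filter fun i ↦ i ≠ j,
        ‖A1W S ψ W G₁ T E P' i j s'‖ ≤ Aw * (K * (K₃ * (((L : ℝ) + 2) ^ K₃ * ((i : ℝ) + j) ^ K *
          (2 : ℝ) ^ (-(min i j : ℝ) / K) * min 1 (2 ^ (L + 1) / 2 ^ (i + j))) * (X * g X))) := by
      intro j hj i hi
      rw [mem_filter, mem_Ico] at hi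
      rw [mem_Ico] at hj
      have hWe : W = fun b ↦ ∑ l ∈ range n, a l *
          Real.exp (-((S.nm b : ℝ) / (X / ((l : ℝ) + 1)))) := by
        funext b
        rw [hWdef]
        change w (S.nm b / X) = _
        rw [hcomb]
        refine Finset.sum_congr rfl fun l _ ↦ ?_
        congr 2
        have : (l : ℝ) + 1 ≠ 0 := by positivity
        field_simp
      rw [hWe]
      refine (norm_A1W_le S ψ n a (fun l b ↦ Real.exp (-((S.nm b : ℝ) / (X / ((l : ℝ) + 1)))))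
        G₁ T E P' i j s').trans ?_
      rw [hAw, Finset.sum_mul]
      refine Finset.sum_le_sum fun l hl ↦ mul_le_mul_of_nonneg_left ?_ (abs_nonneg _)
      rw [mem_range] at hl
      have hl' : (l : ℝ) + 1 ≤ n := by exact_mod_cast hl
      have hl0 : (0 : ℝ) < (l : ℝ) + 1 := by positivity
      have hX' : 1 ≤ X / ((l : ℝ) + 1) := by
        rw [le_div_iff₀ hl0]; linarith
      have hX'X : X / ((l : ℝ) + 1) ≤ X := by
        apply div_le_self (by linarith)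
        have : (0 : ℝ) ≤ l := by positivity
        linarith
      have h2 := hK₃ E T i j s' (X / ((l : ℝ) + 1)) P' (by omega) hi.1.1 (by omega) hi.2 hs' hX'
      have h3 := osa_scale g K hyp.g_one hyp.g_mono K₃ i j hX' hX'X
      have hm := min_bound X (i + j)
      refine (show ‖A1W S ψ (fun b ↦ Real.exp (-((S.nm b : ℝ) / (X / ((l : ℝ) + 1)))))
        G₁ T E P' i j s'‖ ≤ _ from h2).trans (h3.trans ?_)
      refine mul_le_mul_of_nonneg_left ?_ (Nat.cast_nonneg _)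
      refine mul_le_mul_of_nonneg_right ?_ hXg
      calc (K₃ : ℝ) * (lg X + 2) ^ K₃ * (i + j) ^ K * (2 : ℝ) ^ (-(min i j : ℝ) / K) *
            min 1 (X / 2 ^ (i + j))
          = (K₃ * (((lg X : ℝ) + 2) ^ K₃ * ((i : ℝ) + j) ^ K *
            (2 : ℝ) ^ (-(min i j : ℝ) / K))) * min 1 (X / 2 ^ (i + j)) := by ring
        _ ≤ (K₃ * (((lg X : ℝ) + 2) ^ K₃ * ((i : ℝ) + j) ^ K *
            (2 : ℝ) ^ (-(min i j : ℝ) / K))) * min 1 (2 ^ (lg X + 1) / 2 ^ (i + j)) :=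
            mul_le_mul_of_nonneg_left hm (by positivity)
        _ = _ := by rw [← hL]; ring
    have h2 : ∑ j ∈ Ico s J, ∑ i ∈ Ico T J with i ≠ j, ‖A1W S ψ W G₁ T E P' i j s'‖ ≤
        ∑ j ∈ Ico T J, ∑ i ∈ Ico T J,
          Aw * (K * (K₃ * (((L : ℝ) + 2) ^ K₃ * ((i : ℝ) + j) ^ K *
          (2 : ℝ) ^ (-(min i j : ℝ) / K) * min 1 (2 ^ (L + 1) / 2 ^ (i + j))) * (X * g X))) := by
      refine (Finset.sum_le_sum fun j hj ↦ (Finset.sum_le_sum (h1 j hj)).trans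
        (Finset.sum_le_sum_of_subset_of_nonneg (Finset.filter_subset _ _)
          fun i _ _ ↦ by positivity)).trans ?_
      exact Finset.sum_le_sum_of_subset_of_nonneg (Finset.Ico_subset_Ico hTs le_rfl)
        fun j _ _ ↦ by positivity
    refine h2.trans ?_
    rw [Finset.sum_comm]
    simp only [← Finset.mul_sum, ← Finset.sum_mul]
    have h3 := hL6 L (by omega) T (by omega) J
    calc _ ≤ Aw * (K * (K₃ * e * (X * g X))) :=
          mul_le_mul_of_nonneg_left (mul_le_mul_of_nonneg_left (mul_le_mul_of_nonneg_right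
            (mul_le_mul_of_nonneg_left h3 (Nat.cast_nonneg _)) hXg) (Nat.cast_nonneg _)) hAw0
      _ = _ := by ring
  have hT2 : ∑ j ∈ Ico s J, T2W S W G₁ T E P' j ≤ (1 / Q) * (ρ * (Q * F) +
      e * (X * g X)) + (D * K₆ + Aw * K * K₃) * e * (X * g X) := by
    have h1 : ∀ j ∈ Ico s J, T2W S W G₁ T E P' j ≤ (1 / Q) * T1W S W E P' j +
        (1 / Q) * ∑ s : k with s ≠ 0, (Z1W S ψ W T E P' j s +
          ∑ i ∈ Ico T J with i ≠ j, ‖A1W S ψ W G₁ T E P' i j s‖) := by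
      intro j hj
      rw [mem_Ico] at hj
      exact step7W S hFUL ψ hyp.ψ_ne W hW0 G₁ T E J P' j (hth j (by omega)) hP'J
    refine (Finset.sum_le_sum h1).trans ?_
    rw [Finset.sum_add_distrib, ← Finset.mul_sum, ← Finset.mul_sum]
    have hQ0 : (0 : ℝ) ≤ 1 / Q := by positivity
    refine add_le_add (mul_le_mul_of_nonneg_left hS2 hQ0) ?_
    rw [Finset.sum_comm]
    have h2 : ∑ s' : k with s' ≠ 0, ∑ j ∈ Ico s J, (Z1W S ψ W T E P' j s' +
          ∑ i ∈ Ico T J with i ≠ j, ‖A1W S ψ W G₁ T E P' i j s'‖) ≤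
        ∑ _s' : k with _s' ≠ 0, (D * K₆ + Aw * K * K₃) * e * (X * g X) := by
      refine Finset.sum_le_sum fun s' hs' ↦ ?_
      rw [mem_filter] at hs'
      rw [Finset.sum_add_distrib]
      have a1 := hZ s'
      have a2 := hO s' hs'.2
      linarith
    rw [Finset.sum_const, nsmul_eq_mul] at h2
    have h3 : (((univ : Finset k).filter fun s' ↦ s' ≠ 0).card : ℝ) ≤ Q := by
      rw [hQ]
      exact_mod_cast Finset.card_le_univ _
    have h0 : 0 ≤ (D * K₆ + Aw * K * K₃) * e * (X * g X) := by positivity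
    have h4 := h2.trans (mul_le_mul_of_nonneg_right h3 h0)
    rw [one_div, inv_mul_le_iff₀ (by linarith)]
    exact h4
  -- conclusion for the good sets
  set G : ℝ := ∑ b ∈ P'.powerset with (S.Fam b ∧ Ok S G₁ j₀ b ∧
        ∃ q, S.Wt E b q ∧ j₀ ≤ S.bl q ∧ Fintype.card k - 1 ≤ S.cnt₂ E b q),
        W b with hG
  have hF0 : 0 ≤ F := Finset.sum_nonneg fun b _ ↦ hW0 b
  have hgood : (Q - 1) * G ≤ ρ * F + (2 + D * K₆ + Aw * K * K₃) * e * (X * g X) := by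
    have h3 : (1 / Q) * (e * (X * g X)) ≤ 1 * (e * (X * g X)) := by
      refine mul_le_mul_of_nonneg_right ?_ (by positivity)
      rw [div_le_one (by linarith)]
      linarith
    have h4 : (1 / Q) * (ρ * (Q * F) + e * (X * g X)) =
        ρ * F + (1 / Q) * (e * (X * g X)) := by
      field_simp
    rw [h4] at hT2
    have h5 : (Q - 1) * G ≤ _ := b4
    refine h5.trans ((add_le_add hS1 hT2).trans ?_)
    nlinarith [h3]
  have hG2 : G ≤ ρ * (1 / (Q - 1)) * F + (2 + D * K₆ + Aw * K * K₃) * e * (X * g X) := by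
    have hQ1 : 0 < Q - 1 := by linarith
    have h0 : 0 ≤ (2 + D * K₆ + Aw * K * K₃) * e * (X * g X) := by positivity
    have h1 : G ≤ (ρ * F + (2 + D * K₆ + Aw * K * K₃) * e * (X * g X)) / (Q - 1) := by
      rw [le_div_iff₀ hQ1]; linarith
    refine h1.trans ?_
    rw [add_div]
    refine add_le_add (le_of_eq ?_) (div_le_self h0 (by linarith))
    field_simp
  have hFF : F ≤ ∑ b ∈ P.powerset with S.Fam b, w (S.nm b / X) := by
    refine Finset.sum_le_sum_of_subset_of_nonneg ?_ fun b _ _ ↦ hW0 b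
    intro b hb
    rw [mem_filter, mem_powerset] at hb ⊢
    exact ⟨hb.1.trans (Finset.filter_subset _ _), hb.2⟩
  have hθ : 0 ≤ ρ * (1 / (Q - 1)) := by
    have hQ1 : 0 < Q - 1 := by linarith
    positivity
  have hG3 := hG2.trans (add_le_add (mul_le_mul_of_nonneg_left hFF hθ) le_rfl)
  have hVe : V * e = ε := by
    rw [he]; field_simp
  have hfinal : (5 * D + (2 + D * K₆ + Aw * K * K₃)) * e * (X * g X) =
      ε * (X * g X) := by
    rw [← hVe]
  refine b1.trans ?_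
  have b1' := add_le_add (add_le_add (add_le_add (add_le_add (add_le_add b6 b0) b2) b5) b7) hG3
  refine b1'.trans ?_
  nlinarith [hfinal]

end Pool.Agent.Helper85.ND
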