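import Pool.Agent.Helper38.ND.Goals
import Pool.Agent.Helper17.PP2.FinB

/-!
# Project ND (MP_fc6b1e_nt), packet W_MT2: `MT₂` with weights: the steps
-/

namespace Pool.Agent.Helper85.ND

open Finset Pool.Agent.Helper17.PP Pool.Agent.Helper17.PP0 Pool.Agent.Helper17.PP2
open Pool.Agent.Helper38.ND

section steps

variable {p : ℕ} [Fact p.Prime] {B B₀ k U Λ C : Type} [Field k] [Fintype k]
    [Algebra (ZMod p) k] [AddCommGroup U] [Module k U] [Fintype U] [AddCommGroup Λ] [Module k Λ]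
    [AddCommGroup C] (S : Sys p B B₀ k U Λ C)

open Classical in
/-- The sum of the `cnt` over the block `j`. -/
noncomputable def T1W (W : Finset B → ℝ) (E : ℕ) (P : Finset B) (j : ℕ) : ℝ :=
  ∑ b ∈ P.powerset with S.Fam b, ∑ q ∈ b with (S.Wt E b q ∧ S.bl q = j),
    (S.cnt E b q : ℝ) * W b

open Classical in
/-- The sum of the `cnt₂` over the block `j`, `b` with `Ok`. -/
noncomputable def T2W (W : Finset B → ℝ) (G : B → Prop) (T E : ℕ) (P : Finset B) (j : ℕ) : ℝ :=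
  ∑ b ∈ P.powerset with (S.Fam b ∧ Ok S G T b), ∑ q ∈ b with (S.Wt E b q ∧ S.bl q = j),
    (S.cnt₂ E b q : ℝ) * W b

open Classical in
theorem step1W (hCNT : C_CNT) (W : Finset B → ℝ) (hW : ∀ b, 0 ≤ W b) (G : B → Prop)
    (E j₀ s : ℕ) (P : Finset B) :
    ∑ b ∈ P.powerset with (S.Fam b ∧ S.Bad b), W b ≤
      ∑ b ∈ P.powerset with (∃ q ∈ b, th E s < S.bl q), W b +
      ∑ b ∈ P.powerset with (S.Fam b ∧ ∃ (x : U) (c : B → k), S.IsSol b x c ∧
        ¬ (x = 0 ∧ c = 0) ∧ ∀ q, c q ≠ 0 → S.bl q < j₀), W b +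
      ∑ b ∈ P.powerset with (∃ q ∈ b, ∃ q' ∈ b, q ≠ q' ∧ S.bl q = S.bl q' ∧ j₀ ≤ S.bl q),
        W b +
      ∑ b ∈ P.powerset with (∃ q ∈ b, j₀ ≤ S.bl q ∧ ∃ D ⊆ b, q ∉ D ∧
        (∀ q' ∈ D, S.bl q' ≤ th E (S.bl q)) ∧ 2 ^ tb E (S.bl q) ≤ S.nm D),
        W b +
      ∑ b ∈ P.powerset with (∃ q ∈ b, ¬ G q ∧ j₀ ≤ S.bl q), W b +
      ∑ b ∈ (P.filter fun q ↦ S.bl q ≤ th E s).powerset with (S.Fam b ∧ Ok S G j₀ b ∧
        ∃ q, S.Wt E b q ∧ j₀ ≤ S.bl q ∧ Fintype.card k - 1 ≤ S.cnt₂ E b q),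
        W b := by
  have hlast : ∑ b ∈ (P.filter fun q ↦ S.bl q ≤ th E s).powerset with (S.Fam b ∧ Ok S G j₀ b ∧
        ∃ q, S.Wt E b q ∧ j₀ ≤ S.bl q ∧ Fintype.card k - 1 ≤ S.cnt₂ E b q),
        W b =
      ∑ b ∈ P.powerset with ((∀ q ∈ b, S.bl q ≤ th E s) ∧ (S.Fam b ∧ Ok S G j₀ b ∧
        ∃ q, S.Wt E b q ∧ j₀ ≤ S.bl q ∧ Fintype.card k - 1 ≤ S.cnt₂ E b q)),
        W b := by
    refine Finset.sum_congr ?_ fun _ _ ↦ rfl
    ext b
    simp only [mem_filter, mem_powerset]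
    constructor
    · rintro ⟨h1, h2⟩
      exact ⟨fun q hq ↦ (mem_filter.1 (h1 hq)).1, fun q hq ↦ (mem_filter.1 (h1 hq)).2, h2⟩
    · rintro ⟨h1, h2, h3⟩
      exact ⟨fun q hq ↦ mem_filter.2 ⟨h1 hq, h2 q hq⟩, h3⟩
  rw [hlast]
  simp only [Finset.sum_filter, ← Finset.sum_add_distrib]
  refine Finset.sum_le_sum fun b hb ↦ ?_
  have he : 0 ≤ W b := hW b
  by_cases hA : S.Fam b ∧ S.Bad b
  swap
  · rw [if_neg hA]
    positivity
  rw [if_pos hA]
  have key : ∀ t1 t2 t3 t4 t5 t6 : ℝ, 0 ≤ t1 → 0 ≤ t2 → 0 ≤ t3 → 0 ≤ t4 → 0 ≤ t5 → 0 ≤ t6 →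
      (t1 = W b ∨ t2 = W b ∨
        t3 = W b ∨ t4 = W b ∨
        t5 = W b ∨ t6 = W b) →
      W b ≤ t1 + t2 + t3 + t4 + t5 + t6 := by
    intro t1 t2 t3 t4 t5 t6 h1 h2 h3 h4 h5 h6 h
    rcases h with h | h | h | h | h | h <;> linarith
  refine key _ _ _ _ _ _ (by positivity) (by positivity) (by positivity) (by positivity)
    (by positivity) (by positivity) ?_
  by_cases h6 : ∃ q ∈ b, th E s < S.bl q
  · exact Or.inl (if_pos h6)
  by_cases h0 : S.Fam b ∧ ∃ (x : U) (c : B → k), S.IsSol b x c ∧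
        ¬ (x = 0 ∧ c = 0) ∧ ∀ q, c q ≠ 0 → S.bl q < j₀
  · exact Or.inr (Or.inl (if_pos h0))
  by_cases h2 : ∃ q ∈ b, ∃ q' ∈ b, q ≠ q' ∧ S.bl q = S.bl q' ∧ j₀ ≤ S.bl q
  · exact Or.inr (Or.inr (Or.inl (if_pos h2)))
  by_cases h5 : ∃ q ∈ b, j₀ ≤ S.bl q ∧ ∃ D ⊆ b, q ∉ D ∧
        (∀ q' ∈ D, S.bl q' ≤ th E (S.bl q)) ∧ 2 ^ tb E (S.bl q) ≤ S.nm D
  · exact Or.inr (Or.inr (Or.inr (Or.inl (if_pos h5))))
  by_cases h7 : ∃ q ∈ b, ¬ G q ∧ j₀ ≤ S.bl q
  · exact Or.inr (Or.inr (Or.inr (Or.inr (Or.inl (if_pos h7)))))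
  have h8 : (∀ q ∈ b, S.bl q ≤ th E s) ∧ (S.Fam b ∧ Ok S G j₀ b ∧
        ∃ q, S.Wt E b q ∧ j₀ ≤ S.bl q ∧ Fintype.card k - 1 ≤ S.cnt₂ E b q) := by
    refine ⟨fun q hq ↦ not_lt.1 fun h ↦ h6 ⟨q, hq, h⟩, hA.1, ⟨fun q hq q' hq' hne he ↦ ?_,
      fun q hq hT ↦ ?_⟩, ?_⟩
    · by_contra hh
      exact h2 ⟨q, hq, q', hq', hne, he, by omega⟩
    · by_contra hh
      exact h7 ⟨q, hq, hh, hT⟩
    · refine hCNT p B B₀ k U Λ C S E j₀ b hA.2 (fun x c hx hne ↦ ?_) fun q hq hqs hqb ↦ ?_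
      · by_contra hh
        push Not at hh
        exact h0 ⟨hA.1, x, c, hx, hne, fun q hq ↦ hh q hq⟩
      · refine ⟨hq, hqs, fun q' hq' hne _ he ↦ h2 ⟨q, hq, q', hq', Ne.symm hne, he.symm, hqb⟩,
          fun D hD hqD hDb ↦ ?_⟩
        by_contra hh
        exact h5 ⟨q, hq, hqb, D, hD, hqD, hDb, not_lt.1 hh⟩
  exact Or.inr (Or.inr (Or.inr (Or.inr (Or.inr (if_pos h8)))))


open Classical in
theorem step4W (W : Finset B → ℝ) (hW : ∀ b, 0 ≤ W b) (G : B → Prop) (E j₀ s T : ℕ)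
    (P : Finset B)
    (hP : ∀ q ∈ P, S.bl q ≤ th E s) (hT : j₀ ≤ T) :
    ((Fintype.card k : ℝ) - 1) * ∑ b ∈ P.powerset with (S.Fam b ∧ Ok S G j₀ b ∧
        ∃ q, S.Wt E b q ∧ j₀ ≤ S.bl q ∧ Fintype.card k - 1 ≤ S.cnt₂ E b q),
        W b ≤ ∑ j ∈ Ico j₀ s, T1W S W E P j +
          ∑ j ∈ Ico s (th E s + 1), T2W S W G T E P j := by
  have hA : ((Fintype.card k : ℝ) - 1) * ∑ b ∈ P.powerset with (S.Fam b ∧ Ok S G j₀ b ∧
        ∃ q, S.Wt E b q ∧ j₀ ≤ S.bl q ∧ Fintype.card k - 1 ≤ S.cnt₂ E b q),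
        W b ≤
      ∑ b ∈ P.powerset with S.Fam b,
        (∑ q ∈ b with ((S.Wt E b q ∧ S.bl q < s) ∧ j₀ ≤ S.bl q), (S.cnt E b q : ℝ)) *
          W b +
      ∑ b ∈ P.powerset with (S.Fam b ∧ Ok S G T b),
        (∑ q ∈ b with (S.Wt E b q ∧ s ≤ S.bl q), (S.cnt₂ E b q : ℝ)) *
          W b := by
    rw [Finset.mul_sum]
    have h1 : ∑ b ∈ P.powerset with (S.Fam b ∧ Ok S G j₀ b ∧
        ∃ q, S.Wt E b q ∧ j₀ ≤ S.bl q ∧ Fintype.card k - 1 ≤ S.cnt₂ E b q),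
        ((Fintype.card k : ℝ) - 1) * W b ≤
      ∑ b ∈ P.powerset with (S.Fam b ∧ Ok S G j₀ b ∧
        ∃ q, S.Wt E b q ∧ j₀ ≤ S.bl q ∧ Fintype.card k - 1 ≤ S.cnt₂ E b q),
        (∑ q ∈ b with ((S.Wt E b q ∧ S.bl q < s) ∧ j₀ ≤ S.bl q), (S.cnt E b q : ℝ)) *
          W b +
      ∑ b ∈ P.powerset with (S.Fam b ∧ Ok S G j₀ b ∧
        ∃ q, S.Wt E b q ∧ j₀ ≤ S.bl q ∧ Fintype.card k - 1 ≤ S.cnt₂ E b q),
        (∑ q ∈ b with (S.Wt E b q ∧ s ≤ S.bl q), (S.cnt₂ E b q : ℝ)) *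
          W b := by
      rw [← Finset.sum_add_distrib]
      refine Finset.sum_le_sum fun b hb ↦ ?_
      rw [mem_filter] at hb
      rw [← add_mul]
      exact mul_le_mul_of_nonneg_right (step2 (Λ := Λ) S E j₀ s b hb.2.2.2) (hW b)
    refine h1.trans (add_le_add ?_ ?_)
    · refine Finset.sum_le_sum_of_subset_of_nonneg ?_ fun b _ _ ↦ mul_nonneg (by positivity) (hW b)
      intro b hb
      rw [mem_filter] at hb ⊢
      exact ⟨hb.1, hb.2.1⟩
    · refine Finset.sum_le_sum_of_subset_of_nonneg ?_ fun b _ _ ↦ mul_nonneg (by positivity) (hW b)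
      intro b hb
      rw [mem_filter] at hb ⊢
      exact ⟨hb.1, hb.2.1, hb.2.2.1.mono (S := S) hT⟩
  refine hA.trans (add_le_add (le_of_eq ?_) (le_of_eq ?_))
  · unfold T1W
    rw [Finset.sum_comm]
    refine Finset.sum_congr rfl fun b hb ↦ ?_
    rw [Finset.sum_mul]
    have h2 := S.sum_blocks (b.filter fun q ↦ S.bl q < s) (fun q ↦ S.Wt E b q) j₀ s
      (fun q ↦ (S.cnt E b q : ℝ) * W b)
      (fun q hq ↦ (mem_filter.1 hq).2)
    rw [Finset.filter_filter] at h2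
    have h3 : b.filter (fun q ↦ (S.Wt E b q ∧ S.bl q < s) ∧ j₀ ≤ S.bl q) =
        b.filter (fun q ↦ S.bl q < s ∧ S.Wt E b q ∧ j₀ ≤ S.bl q) := by
      refine Finset.filter_congr fun q _ ↦ ?_
      tauto
    rw [h3, h2]
    refine Finset.sum_congr rfl fun j hj ↦ ?_
    rw [mem_Ico] at hj
    rw [Finset.filter_filter]
    refine Finset.sum_congr ?_ fun _ _ ↦ rfl
    refine Finset.filter_congr fun q _ ↦ ?_
    constructor
    · rintro ⟨-, h⟩
      exact h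
    · intro h
      exact ⟨by omega, h⟩
  · unfold T2W
    rw [Finset.sum_comm]
    refine Finset.sum_congr rfl fun b hb ↦ ?_
    rw [mem_filter, mem_powerset] at hb
    have hbl : ∀ q ∈ b, S.bl q < th E s + 1 := fun q hq ↦ Nat.lt_succ_of_le (hP q (hb.1 hq))
    rw [Finset.sum_mul]
    exact S.sum_blocks b (fun q ↦ S.Wt E b q) s (th E s + 1)
      (fun q ↦ (S.cnt₂ E b q : ℝ) * W b) hbl


end steps

section

variable {p : ℕ} [Fact p.Prime] {B B₀ k U Λ C : Type} [Field k] [Fintype k]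
    [Algebra (ZMod p) k] [AddCommGroup U] [Module k U] [Fintype U] [AddCommGroup Λ] [Module k Λ]
    [Fintype Λ] [AddCommGroup C] (S : Sys p B B₀ k U Λ C)

open Classical in
/-- The oscillating sum of the block pair `i, j`. -/
noncomputable def A1W (ψ : AddChar k ℂ) (W : Finset B → ℝ) (G : B → Prop) (T E : ℕ)
    (P : Finset B) (i j : ℕ) (s : k) : ℂ :=
  ∑ b ∈ P.powerset with (S.Fam b ∧ Ok S G T b), ∑ q ∈ b with (S.Wt E b q ∧ S.bl q = j),
    ∑ q₁ ∈ b with S.bl q₁ = i, ful S ψ E P b q s (fun c y ↦ Tp S T E b q c y q₁) *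
      (W b : ℂ)

open Classical in
/-- The part with zero labels. -/
noncomputable def Z1W (ψ : AddChar k ℂ) (W : Finset B → ℝ) (T E : ℕ) (P : Finset B) (j : ℕ)
    (s : k) : ℝ :=
  ∑ b ∈ P.powerset, ∑ q ∈ b with (S.Wt E b q ∧ S.bl q = j),
    ‖ful S ψ E P b q s (Zr S T E b q)‖ * W b

open Classical in
/-- One block: from `cnt₂` to `cnt` and the two error terms. -/
theorem step7W (hFUL : R_FUL) (ψ : AddChar k ℂ) (hψ : ψ ≠ 1) (W : Finset B → ℝ)
    (hW : ∀ b, 0 ≤ W b) (G : B → Prop) (T E J : ℕ) (P : Finset B) (j : ℕ) (hjE : j ≤ th E j)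
    (hP : ∀ q ∈ P, S.bl q < J) :
    T2W S W G T E P j ≤ (1 / Fintype.card k : ℝ) * T1W S W E P j +
      (1 / Fintype.card k : ℝ) * ∑ s : k with s ≠ 0, (Z1W S ψ W T E P j s +
        ∑ i ∈ Ico T J with i ≠ j, ‖A1W S ψ W G T E P i j s‖) := by
  have hcard : (0 : ℝ) ≤ 1 / Fintype.card k := by positivity
  have h1 : T2W S W G T E P j = (1 / Fintype.card k : ℝ) *
      (∑ b ∈ P.powerset with (S.Fam b ∧ Ok S G T b), ∑ q ∈ b with (S.Wt E b q ∧ S.bl q = j),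
        (S.cnt E b q : ℝ) * W b) +
      (1 / Fintype.card k : ℝ) * ∑ s : k with s ≠ 0,
        ∑ b ∈ P.powerset with (S.Fam b ∧ Ok S G T b), ∑ q ∈ b with (S.Wt E b q ∧ S.bl q = j),
          (ful S ψ E P b q s fun _ _ ↦ True).re * W b := by
    unfold T2W
    rw [Finset.sum_comm (s := univ.filter fun s : k ↦ s ≠ 0), Finset.mul_sum, Finset.mul_sum,
      ← Finset.sum_add_distrib]
    refine Finset.sum_congr rfl fun b hb ↦ ?_
    rw [mem_filter, mem_powerset] at hb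
    rw [Finset.sum_comm (s := univ.filter fun s : k ↦ s ≠ 0), Finset.mul_sum, Finset.mul_sum,
      ← Finset.sum_add_distrib]
    refine Finset.sum_congr rfl fun q hq ↦ ?_
    rw [mem_filter] at hq
    rw [hFUL p B B₀ k U Λ C S ψ hψ E P b q hb.1 hq.1 (by rw [hq.2.2]; exact hjE),
      ← Finset.sum_mul]
    ring
  rw [h1]
  refine add_le_add (mul_le_mul_of_nonneg_left ?_ hcard) (mul_le_mul_of_nonneg_left ?_ hcard)
  · unfold T1W
    refine Finset.sum_le_sum_of_subset_of_nonneg ?_ fun b _ _ ↦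
      Finset.sum_nonneg fun q _ ↦ mul_nonneg (by positivity) (hW b)
    intro b hb
    rw [mem_filter] at hb ⊢
    exact ⟨hb.1, hb.2.1⟩
  · refine Finset.sum_le_sum fun s _ ↦ ?_
    have h2 : ∑ b ∈ P.powerset with (S.Fam b ∧ Ok S G T b),
        ∑ q ∈ b with (S.Wt E b q ∧ S.bl q = j),
          (ful S ψ E P b q s fun _ _ ↦ True).re * W b =
        (∑ b ∈ P.powerset with (S.Fam b ∧ Ok S G T b), ∑ q ∈ b with (S.Wt E b q ∧ S.bl q = j),
          ful S ψ E P b q s (Zr S T E b q) * (W b : ℂ)).re +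
        (∑ i ∈ Ico T J with i ≠ j, A1W S ψ W G T E P i j s).re := by
      rw [← Complex.add_re]
      unfold A1W
      rw [Finset.sum_comm (s := (Ico T J).filter fun i ↦ i ≠ j), ← Finset.sum_add_distrib,
        Complex.re_sum]
      refine Finset.sum_congr rfl fun b hb ↦ ?_
      rw [mem_filter, mem_powerset] at hb
      rw [Finset.sum_comm (s := (Ico T J).filter fun i ↦ i ≠ j), ← Finset.sum_add_distrib,
        Complex.re_sum]
      refine Finset.sum_congr rfl fun q hq ↦ ?_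
      rw [mem_filter] at hq
      rw [ful_split S ψ G T E P b q s hb.2.2]
      have h3 : ∑ q₁ ∈ b, ful S ψ E P b q s (fun c y ↦ Tp S T E b q c y q₁) =
          ∑ i ∈ Ico T J with i ≠ j, ∑ q₁ ∈ b with S.bl q₁ = i,
            ful S ψ E P b q s (fun c y ↦ Tp S T E b q c y q₁) := by
        rw [← Finset.sum_filter_add_sum_filter_not b (fun q₁ ↦ T ≤ S.bl q₁ ∧ S.bl q₁ ≠ j)]
        rw [Finset.sum_eq_zero (s := b.filter fun q₁ ↦ ¬ (T ≤ S.bl q₁ ∧ S.bl q₁ ≠ j)), add_zero]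
        · rw [← Finset.sum_fiberwise_of_maps_to
            (s := b.filter fun q₁ ↦ T ≤ S.bl q₁ ∧ S.bl q₁ ≠ j)
            (t := (Ico T J).filter fun i ↦ i ≠ j) (g := S.bl)]
          · refine Finset.sum_congr rfl fun i hi ↦ Finset.sum_congr ?_ fun _ _ ↦ rfl
            rw [mem_filter, mem_Ico] at hi
            ext q₁
            simp only [mem_filter]
            constructor
            · rintro ⟨⟨h1, h2⟩, h3⟩
              exact ⟨h1, h3⟩
            · rintro ⟨h1, h3⟩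
              exact ⟨⟨h1, by omega, by omega⟩, h3⟩
          · intro q₁ hq₁
            rw [mem_filter] at hq₁
            rw [mem_filter, mem_Ico]
            exact ⟨⟨hq₁.2.1, hP q₁ (hb.1 hq₁.1)⟩, hq₁.2.2⟩
        · intro q₁ hq₁
          rw [mem_filter] at hq₁
          refine ful_tp_zero S ψ T E P b q q₁ s ?_
          rw [hq.2.2]
          by_contra hcon
          push Not at hcon
          exact hq₁.2 hcon
      rw [h3]
      have h4 : ∀ (z : ℂ) (r : ℝ), z.re * r = (z * (r : ℂ)).re := by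
        intro z r
        rw [Complex.mul_re, Complex.ofReal_re, Complex.ofReal_im, mul_zero, sub_zero]
      rw [h4, add_mul, Finset.sum_mul]
      congr 1
      congr 1
      refine Finset.sum_congr rfl fun i _ ↦ ?_
      rw [Finset.sum_mul]
    rw [h2]
    refine add_le_add ?_ ?_
    · refine (Complex.re_le_norm _).trans ((norm_sum_le _ _).trans ?_)
      unfold Z1W
      refine (Finset.sum_le_sum fun b _ ↦ norm_sum_le _ _).trans ?_
      have h5 : ∀ b : Finset B, ∀ q : B, ‖ful S ψ E P b q s (Zr S T E b q) *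
          (W b : ℂ)‖ =
          ‖ful S ψ E P b q s (Zr S T E b q)‖ * W b := by
        intro b q
        rw [norm_mul, Complex.norm_real, Real.norm_of_nonneg (hW b)]
      simp only [h5]
      exact Finset.sum_le_sum_of_subset_of_nonneg (Finset.filter_subset _ _)
        fun b _ _ ↦
          Finset.sum_nonneg fun q _ ↦ mul_nonneg (by positivity) (hW b)
    · exact (Complex.re_le_norm _).trans (norm_sum_le _ _)

theorem A1W_add (ψ : AddChar k ℂ) (W W' : Finset B → ℝ) (G : B → Prop) (T E : ℕ)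
    (P : Finset B) (i j : ℕ) (s : k) :
    A1W S ψ (fun b ↦ W b + W' b) G T E P i j s =
      A1W S ψ W G T E P i j s + A1W S ψ W' G T E P i j s := by
  unfold A1W
  simp only [← Finset.sum_add_distrib]
  refine Finset.sum_congr rfl fun b _ ↦ Finset.sum_congr rfl fun q _ ↦
    Finset.sum_congr rfl fun q₁ _ ↦ ?_
  push_cast
  ring

theorem A1W_smul (ψ : AddChar k ℂ) (c : ℝ) (W : Finset B → ℝ) (G : B → Prop) (T E : ℕ)
    (P : Finset B) (i j : ℕ) (s : k) :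
    A1W S ψ (fun b ↦ c * W b) G T E P i j s = (c : ℂ) * A1W S ψ W G T E P i j s := by
  unfold A1W
  simp only [Finset.mul_sum]
  refine Finset.sum_congr rfl fun b _ ↦ Finset.sum_congr rfl fun q _ ↦
    Finset.sum_congr rfl fun q₁ _ ↦ ?_
  push_cast
  ring

theorem norm_A1W_le (ψ : AddChar k ℂ) (n : ℕ) (a : ℕ → ℝ) (e : ℕ → Finset B → ℝ)
    (G : B → Prop) (T E : ℕ) (P : Finset B) (i j : ℕ) (s : k) :
    ‖A1W S ψ (fun b ↦ ∑ l ∈ range n, a l * e l b) G T E P i j s‖ ≤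
      ∑ l ∈ range n, |a l| * ‖A1W S ψ (e l) G T E P i j s‖ := by
  induction n with
  | zero =>
    simp only [Finset.range_zero, Finset.sum_empty]
    unfold A1W
    simp
  | succ n ih =>
    simp only [Finset.sum_range_succ]
    rw [A1W_add, A1W_smul]
    refine (norm_add_le _ _).trans (add_le_add ih (le_of_eq ?_))
    rw [norm_mul, Complex.norm_real, Real.norm_eq_abs]

/-- The bound of `R_OSA` at `X / (l + 1)` in terms of the one at `X`. -/
theorem osa_scale (g : ℝ → ℝ) (K : ℕ) (hg1 : ∀ Y, 1 ≤ g Y) (hgm : ∀ Y X, Y ≤ X → g Y ≤ K * g X)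
    (K₃ : ℕ) (i j : ℕ) {X X' : ℝ} (hX' : 1 ≤ X') (hXX : X' ≤ X) :
    (K₃ : ℝ) * (lg X' + 2) ^ K₃ * (i + j) ^ K * (2 : ℝ) ^ (-(min i j : ℝ) / K) *
        min 1 (X' / 2 ^ (i + j)) * (X' * g X') ≤
      K * (K₃ * (lg X + 2) ^ K₃ * (i + j) ^ K * (2 : ℝ) ^ (-(min i j : ℝ) / K) *
        min 1 (X / 2 ^ (i + j)) * (X * g X)) := by
  have hlg : lg X' ≤ lg X := Nat.log_mono_right (Nat.floor_le_floor hXX)
  have hlg' : (lg X' : ℝ) ≤ lg X := by exact_mod_cast hlg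
  have h1 : X' * g X' ≤ K * (X * g X) := by
    have h2 := hgm X' X hXX
    have h3 := hg1 X'
    have h4 := hg1 X
    calc X' * g X' ≤ X * (K * g X) := mul_le_mul hXX h2 (by linarith) (by linarith)
      _ = K * (X * g X) := by ring
  have hg0 : 0 ≤ X' * g X' := by
    have := hg1 X'
    positivity
  calc (K₃ : ℝ) * (lg X' + 2) ^ K₃ * (i + j) ^ K * (2 : ℝ) ^ (-(min i j : ℝ) / K) *
        min 1 (X' / 2 ^ (i + j)) * (X' * g X')
      ≤ (K₃ : ℝ) * (lg X + 2) ^ K₃ * (i + j) ^ K * (2 : ℝ) ^ (-(min i j : ℝ) / K) *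
        min 1 (X / 2 ^ (i + j)) * (K * (X * g X)) := by
        have hm0 : (0 : ℝ) ≤ min 1 (X' / 2 ^ (i + j)) := by positivity
        have hX0 : 0 ≤ X := by linarith
        have hm1 : (0 : ℝ) ≤ min 1 (X / 2 ^ (i + j)) := by positivity
        gcongr
    _ = _ := by ring

end

end Pool.Agent.Helper85.ND
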